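import Pool.Agent.HPP3.Thread

/-!
A tree with few leaves has a path of 14 consecutive vertices of degree two: linear bound.
-/

set_option autoImplicit false

namespace Pool.Agent.HPP3

open SimpleGraph Finset Classical

theorem two_iff {n : ℕ} (T : SimpleGraph (Fin n)) (v : Fin n) : Two T v ↔ T.degree v = 2 := by
  rw [← card_neighborFinset_eq_degree, Finset.card_eq_two]
  constructor
  · rintro ⟨x, z, hxz, h⟩
    refine ⟨x, z, hxz, ?_⟩
    ext w
    simp [h]
  · rintro ⟨x, z, hxz, h⟩
    refine ⟨x, z, hxz, fun w => ?_⟩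
    have h1 : w ∈ T.neighborFinset v ↔ w ∈ ({x, z} : Finset (Fin n)) := by rw [h]
    simpa using h1

theorem deg_eq_sum {n : ℕ} (T : SimpleGraph (Fin n)) (v : Fin n) :
    T.degree v = ∑ w, if T.Adj v w then 1 else 0 := by
  rw [← card_neighborFinset_eq_degree, ← Finset.card_filter]
  congr 1
  ext w
  simp

/-- the number of darts out of the vertices with a property -/
theorem card_out {n : ℕ} (T : SimpleGraph (Fin n)) (P : Fin n → Prop) :
    (univ.filter fun p : Fin n × Fin n => T.Adj p.1 p.2 ∧ P p.1).card =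
      ∑ v, if P v then T.degree v else 0 := by
  rw [Finset.card_filter, Fintype.sum_prod_type]
  refine sum_congr rfl fun v _ => ?_
  by_cases h : P v
  · simp only [h, and_true, if_true]
    exact (deg_eq_sum T v).symm
  · simp [h]

theorem exists_out {n : ℕ} (T : SimpleGraph (Fin n)) (P : Fin n → Prop) :
    ∃ E : Finset (Fin n × Fin n), (∀ p, p ∈ E ↔ T.Adj p.1 p.2 ∧ P p.1) ∧
      E.card = ∑ v, if P v then T.degree v else 0 :=
  ⟨_, fun p => by simp, card_out T P⟩

/-- the number of darts into the vertices with a property -/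
theorem card_into {n : ℕ} (T : SimpleGraph (Fin n)) (P : Fin n → Prop) :
    (univ.filter fun p : Fin n × Fin n => T.Adj p.1 p.2 ∧ P p.2).card =
      ∑ v, if P v then T.degree v else 0 := by
  rw [Finset.card_filter, Fintype.sum_prod_type_right]
  refine sum_congr rfl fun v _ => ?_
  by_cases h : P v
  · simp only [h, and_true, if_true]
    rw [deg_eq_sum T v]
    exact sum_congr rfl fun w _ => by rw [T.adj_comm]
  · simp [h]

theorem exists_bare_linear {k n : ℕ} (hk2 : 2 ≤ k) (hn : 28 * k ≤ n + 40)
    (T : SimpleGraph (Fin n)) (hT : T.IsTree)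
    (hk : {v | {w | T.Adj v w}.ncard = 1}.ncard ≤ k) :
    ∃ a : ℕ → Fin n, (∀ i j, i ≤ 15 → j ≤ 15 → a i = a j → i = j) ∧
      ∀ i, 0 < i → i < 15 → ∀ v, T.Adj (a i) v ↔ v = a (i - 1) ∨ v = a (i + 1) := by
  by_contra hno
  have hdeg : ∀ v, {w | T.Adj v w}.ncard = T.degree v := by
    intro v
    rw [show {w | T.Adj v w} = (T.neighborFinset v : Set (Fin n)) by
      ext w
      simp, Set.ncard_coe_finset]
    rfl
  have hk' : (univ.filter fun v => T.degree v = 1).card ≤ k := by
    refine le_trans (le_of_eq ?_) hk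
    rw [← Set.ncard_coe_finset]
    congr 1
    ext v
    simp [hdeg]
  have : Nontrivial (Fin n) := Fin.nontrivial_iff_two_le.2 (by omega)
  have hpos : ∀ v, 0 < T.degree v := fun v =>
    hT.connected.preconnected.degree_pos_of_nontrivial v
  -- sum of the degrees
  have hsum : ∑ v, T.degree v = 2 * (n - 1) := by
    have h1 := hT.card_edgeFinset
    rw [Fintype.card_fin] at h1
    rw [T.sum_degrees_eq_twice_card_edges]
    omega
  set x := (univ.filter fun v => T.degree v = 2).card with hx
  set L := (univ.filter fun v => T.degree v = 1).card with hL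
  set D := ∑ v, (if ¬ Two T v then T.degree v else 0) with hD
  have hE : ∑ v, (if Two T v then T.degree v else 0) = 2 * x := by
    have h1 : ∑ v, (if Two T v then T.degree v else 0) =
        ∑ v, (if T.degree v = 2 then 2 else 0) := by
      refine sum_congr rfl fun v _ => ?_
      by_cases h : T.degree v = 2
      · rw [if_pos ((two_iff T v).2 h), if_pos h, h]
      · rw [if_neg (fun h2 => h ((two_iff T v).1 h2)), if_neg h]
    rw [h1, hx, Finset.card_filter, mul_sum]
    exact sum_congr rfl fun v _ => by split_ifs <;> rfl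
  have hDE : D + 2 * x = 2 * (n - 1) := by
    rw [← hsum, ← hE, hD, ← sum_add_distrib]
    refine sum_congr rfl fun v _ => ?_
    by_cases h : Two T v <;> simp [h]
  -- threads
  have hthr : 2 * x ≤ 13 * D := by
    obtain ⟨E, hE1, hE2⟩ : ∃ E : Finset (Fin n × Fin n),
        (∀ p, p ∈ E ↔ T.Adj p.1 p.2 ∧ ¬ Two T p.1) ∧ E.card = D := by
      obtain ⟨E, h1, h2⟩ := exists_out T (fun v => ¬ Two T v)
      refine ⟨E, h1, h2.trans ?_⟩
      rw [hD]
      refine sum_congr rfl fun v _ => ?_
      by_cases h : Two T v <;> simp [h]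
    rw [← hE, ← card_into T (fun v => Two T v), ← hE2]
    have h1 : (univ.filter fun p : Fin n × Fin n => T.Adj p.1 p.2 ∧ Two T p.2) ⊆
        ((Finset.Icc 1 13) ×ˢ E).image
          (fun q => (th T q.2.1 q.2.2 (q.1 - 1), th T q.2.1 q.2.2 q.1)) := by
      rintro ⟨u, v⟩ hp
      rw [mem_filter] at hp
      obtain ⟨b, y, i, h1, h2, h3, h4, h5, h6⟩ := thread_dart hT.isAcyclic hno hp.2.1 hp.2.2
      rw [mem_image]
      refine ⟨(i, (b, y)), ?_, ?_⟩
      · rw [mem_product, Finset.mem_Icc]
        exact ⟨⟨h1, h2⟩, (hE1 (b, y)).2 ⟨h3, h4⟩⟩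
      · rw [Prod.ext_iff]
        exact ⟨h5, h6⟩
    refine (card_le_card h1).trans (card_image_le.trans ?_)
    rw [card_product]
    simp
  -- branching
  have hbr : 3 * n ≤ D + 3 * x + 2 * L := by
    have h1 : ∑ v : Fin n, 3 ≤ ∑ v, ((if ¬ Two T v then T.degree v else 0) +
        (3 * (if T.degree v = 2 then 1 else 0) + 2 * (if T.degree v = 1 then 1 else 0))) := by
      refine sum_le_sum fun v _ => ?_
      have h2 := hpos v
      by_cases h : T.degree v = 2
      · rw [if_pos h]
        omega
      · rw [if_pos (fun h3 => h ((two_iff T v).1 h3)), if_neg h]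
        by_cases h1 : T.degree v = 1
        · rw [if_pos h1, h1]
        · rw [if_neg h1]
          omega
    rw [sum_add_distrib, sum_add_distrib, ← mul_sum, ← mul_sum, ← Finset.card_filter,
      ← Finset.card_filter, sum_const, card_univ, Fintype.card_fin, smul_eq_mul] at h1
    omega
  omega

end Pool.Agent.HPP3
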