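import Pool.Agent.WT.Trees

/-!
A tree with at most `k` leaves and at least `28 k - 40` vertices has a path with fourteen
consecutive inner vertices of degree two.
-/

set_option autoImplicit false

namespace Pool.Agent.HPP3

open Finset Classical
open Pool.Agent.WT.Trees (PF pGraph pGraph_adj exists_parent)

/-- every vertex lies above a vertex of degree different from two, with only vertices of degree two
in between -/
lemma par_down {n : ℕ} {T : SimpleGraph (Fin n)} {r : Fin n} {p : Fin n → Fin n} {d : Fin n → ℕ}
    (hd : ∀ u, u ≠ r → d (p u) < d u)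
    (hc : ∀ u, T.degree u = 2 → ∃ c, c ≠ r ∧ p c = u) (u : Fin n) :
    ∃ (v : Fin n) (i : ℕ), T.degree v ≠ 2 ∧ p^[i] v = u ∧
      ∀ j, 0 < j → j ≤ i → T.degree (p^[j] v) = 2 := by
  have hM : ∀ v, d v ≤ ∑ w, d w := fun v =>
    Finset.single_le_sum (f := d) (fun _ _ => Nat.zero_le _) (Finset.mem_univ v)
  have key : ∀ (m : ℕ) (u : Fin n), ∑ w, d w ≤ m + d u →
      ∃ (v : Fin n) (i : ℕ), T.degree v ≠ 2 ∧ p^[i] v = u ∧
        ∀ j, 0 < j → j ≤ i → T.degree (p^[j] v) = 2 := by
    intro m
    induction m with
    | zero =>
      intro u hu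
      by_cases h2 : T.degree u = 2
      · obtain ⟨c, hcr, rfl⟩ := hc u h2
        have h3 := hd c hcr
        have h4 := hM c
        omega
      · exact ⟨u, 0, h2, rfl, fun j h0 h1 => absurd h1 (by omega)⟩
    | succ m ih =>
      intro u hu
      by_cases h2 : T.degree u = 2
      · obtain ⟨c, hcr, rfl⟩ := hc u h2
        have h3 := hd c hcr
        obtain ⟨v, i, hv, hvi, hj⟩ := ih c (by omega)
        have h5 : p^[i + 1] v = p c := by rw [Function.iterate_succ_apply', hvi]
        refine ⟨v, i + 1, hv, h5, fun j h0 h1 => ?_⟩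
        rcases Nat.lt_or_ge i j with h | h
        · obtain rfl : j = i + 1 := by omega
          rw [h5]
          exact h2
        · exact hj j h0 h
      · exact ⟨u, 0, h2, rfl, fun j h0 h1 => absurd h1 (by omega)⟩
  exact key _ u (Nat.le_add_right _ _)

theorem exists_bare_par {k n : ℕ} (hk2 : 2 ≤ k) (hn : 28 * k ≤ n + 40)
    (T : SimpleGraph (Fin n)) (hT : T.IsTree)
    (hk : {v | {w | T.Adj v w}.ncard = 1}.ncard ≤ k) :
    ∃ a : ℕ → Fin n, (∀ i j, i ≤ 15 → j ≤ 15 → a i = a j → i = j) ∧
      ∀ i, 0 < i → i < 15 → ∀ v, T.Adj (a i) v ↔ v = a (i - 1) ∨ v = a (i + 1) := by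
  have hdeg : ∀ v, {w | T.Adj v w}.ncard = T.degree v := by
    intro v
    rw [show {w | T.Adj v w} = (T.neighborFinset v : Set (Fin n)) by
      ext w
      simp, Set.ncard_coe_finset]
    rfl
  have hk' : (univ.filter fun v => T.degree v = 1).card ≤ k := by
    refine le_trans (le_of_eq ?_) hk
    rw [← Set.ncard_coe_finset]
    congr 1
    ext v
    simp [hdeg]
  -- the degrees
  have hpos : ∀ v, 1 ≤ T.degree v := by
    intro v
    have : Nontrivial (Fin n) := Fin.nontrivial_iff_two_le.2 (by omega)
    exact hT.connected.preconnected.degree_pos_of_nontrivial v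
  have hedge : ∑ v, T.degree v + 2 = 2 * n := by
    have h1 := hT.card_edgeFinset
    have h2 := T.sum_degrees_eq_twice_card_edges
    rw [Fintype.card_fin] at h1
    omega
  have hsum : 3 * n ≤ ∑ v, T.degree v + 2 * (univ.filter fun v => T.degree v = 1).card +
      (univ.filter fun v => T.degree v = 2).card := by
    have h1 : ∀ v ∈ (univ : Finset (Fin n)), 3 ≤ T.degree v +
        2 * (if T.degree v = 1 then 1 else 0) + (if T.degree v = 2 then 1 else 0) := by
      intro v _
      have := hpos v
      split_ifs <;> omega
    have h2 := Finset.sum_le_sum h1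
    rw [Finset.sum_add_distrib, Finset.sum_add_distrib, ← Finset.mul_sum, Finset.sum_boole,
      Finset.sum_boole, Finset.sum_const, Finset.card_univ, Fintype.card_fin] at h2
    simp only [smul_eq_mul, Nat.cast_id] at h2
    omega
  have hsplit : (univ.filter fun v => T.degree v = 2).card +
      (univ.filter fun v => ¬ T.degree v = 2).card = n := by
    have := Finset.card_filter_add_card_filter_not (s := (univ : Finset (Fin n)))
      (fun v => T.degree v = 2)
    rw [Finset.card_univ, Fintype.card_fin] at this
    exact this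
  have hleaf : ∃ r, T.degree r ≠ 2 := by
    by_contra hcon
    push Not at hcon
    have h1 : (univ.filter fun v => T.degree v = 1).card = 0 := by
      rw [Finset.card_eq_zero, Finset.filter_eq_empty_iff]
      intro v _ hv
      have := hcon v
      omega
    omega
  obtain ⟨r, hr⟩ := hleaf
  obtain ⟨p, hp, hpT, hdist⟩ := exists_parent T hT r
  have hadj : ∀ a b, T.Adj a b ↔ a ≠ b ∧ (p a = b ∨ p b = a) := by
    intro a b
    rw [← hpT]
    exact pGraph_adj p a b
  obtain ⟨d, hd⟩ : ∃ d : Fin n → ℕ, ∀ u, u ≠ r → d (p u) < d u := ⟨fun u => T.dist u r, hdist⟩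
  have hpr : p r = r := hp.1
  have hne : ∀ u, u ≠ r → T.Adj u (p u) := by
    intro u hu
    rw [hadj]
    refine ⟨fun h => ?_, Or.inl rfl⟩
    have := hd u hu
    rw [← h] at this
    omega
  have hchild : ∀ u, T.degree u = 2 → ∃ c, c ≠ r ∧ p c = u := by
    intro u hu
    have hur : u ≠ r := by
      rintro rfl
      exact hr hu
    obtain ⟨c, hc1, hc2⟩ : ∃ c ∈ T.neighborFinset u, c ≠ p u := by
      apply Finset.exists_mem_ne
      have : (T.neighborFinset u).card = 2 := hu
      omega
    rw [SimpleGraph.mem_neighborFinset, hadj] at hc1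
    rcases hc1.2 with h | h
    · exact absurd h.symm hc2
    · refine ⟨c, ?_, h⟩
      rintro rfl
      exact hur (h.symm.trans hpr)
  by_contra hcon
  have hshort : ∀ (v : Fin n) (i : ℕ), (∀ j, 0 < j → j ≤ i → T.degree (p^[j] v) = 2) → i < 14 := by
    intro v i hj
    by_contra hi
    apply hcon
    have hnr : ∀ j, j ≤ 14 → p^[j] v ≠ r := by
      intro j hj14 h
      rcases Nat.eq_zero_or_pos j with rfl | h0
      · have h1 := hj 1 one_pos (by omega)
        have h2 : v = r := h
        rw [h2, Function.iterate_one, hpr] at h1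
        exact hr h1
      · have h1 := hj j h0 (by omega)
        rw [h] at h1
        exact hr h1
    have hstep : ∀ j, j ≤ 14 → d (p^[j + 1] v) < d (p^[j] v) := by
      intro j hj14
      rw [Function.iterate_succ_apply']
      exact hd _ (hnr j hj14)
    have hmono : ∀ m j, j + m + 1 ≤ 15 → d (p^[j + m + 1] v) < d (p^[j] v) := by
      intro m
      induction m with
      | zero => exact fun j hj15 => hstep j (by omega)
      | succ m ih =>
        intro j hj15
        have h1 := hstep (j + m + 1) (by omega)
        have h2 := ih j (by omega)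
        exact lt_trans h1 h2
    refine ⟨fun j => p^[j] v, fun i j hi15 hj15 hij => ?_, fun j hj0 hj15 u => ?_⟩
    · rcases lt_trichotomy i j with h | h | h
      · exfalso
        obtain ⟨m, rfl⟩ : ∃ m, j = i + m + 1 := ⟨j - i - 1, by omega⟩
        have h1 := hmono m i hj15
        have h2 : p^[i] v = p^[i + m + 1] v := hij
        rw [h2] at h1
        omega
      · exact h
      · exfalso
        obtain ⟨m, rfl⟩ : ∃ m, i = j + m + 1 := ⟨i - j - 1, by omega⟩
        have h1 := hmono m j hi15
        have h2 : p^[j + m + 1] v = p^[j] v := hij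
        rw [h2] at h1
        omega
    · obtain ⟨j, rfl⟩ : ∃ j', j = j' + 1 := ⟨j - 1, by omega⟩
      rw [Nat.add_sub_cancel]
      have h1 : T.Adj (p^[j + 1] v) (p^[j] v) := by
        rw [Function.iterate_succ_apply']
        exact (hne _ (hnr j (by omega))).symm
      have h2 : T.Adj (p^[j + 1] v) (p^[j + 1 + 1] v) := by
        rw [Function.iterate_succ_apply' _ (j + 1)]
        exact hne _ (hnr (j + 1) (by omega))
      have h3 : p^[j] v ≠ p^[j + 1 + 1] v := by
        intro h
        have h4 := hmono 1 j (by omega)
        rw [show j + 1 + 1 = j + 1 + 1 from rfl, ← h] at h4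
        omega
      have h5 : ({p^[j] v, p^[j + 1 + 1] v} : Finset (Fin n)) = T.neighborFinset (p^[j + 1] v) := by
        apply Finset.eq_of_subset_of_card_le
        · intro w hw
          rw [Finset.mem_insert, Finset.mem_singleton] at hw
          rw [SimpleGraph.mem_neighborFinset]
          rcases hw with rfl | rfl
          · exact h1
          · exact h2
        · rw [Finset.card_pair h3]
          exact le_of_eq (hj (j + 1) (by omega) (by omega))
      rw [← SimpleGraph.mem_neighborFinset, ← h5, Finset.mem_insert, Finset.mem_singleton]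
  have hcount : (univ.filter fun v => T.degree v = 2).card ≤
      ((univ.filter fun v => ¬ T.degree v = 2).card - 1) * 13 := by
    have h1 : (univ.filter fun v => T.degree v = 2) ⊆
        (((univ.filter fun v => ¬ T.degree v = 2).erase r) ×ˢ range 13).image
          (fun x => p^[x.2 + 1] x.1) := by
      intro u hu
      rw [Finset.mem_filter] at hu
      obtain ⟨v, i, hv, hvi, hj⟩ := par_down hd hchild u
      have hi := hshort v i hj
      have hi0 : i ≠ 0 := by
        rintro rfl
        have : v = u := hvi
        rw [this] at hv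
        exact hv hu.2
      have hvr : v ≠ r := by
        rintro rfl
        have h2 := hj 1 one_pos (by omega)
        rw [Function.iterate_one, hpr] at h2
        exact hr h2
      rw [Finset.mem_image]
      refine ⟨(v, i - 1), ?_, ?_⟩
      · rw [Finset.mem_product, Finset.mem_erase, Finset.mem_filter, Finset.mem_range]
        exact ⟨⟨hvr, Finset.mem_univ _, hv⟩, by simp only; omega⟩
      · simp only
        rw [Nat.sub_add_cancel (by omega)]
        exact hvi
    have h2 := (Finset.card_le_card h1).trans Finset.card_image_le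
    rw [Finset.card_product, Finset.card_range, Finset.card_erase_of_mem (by
      rw [Finset.mem_filter]
      exact ⟨Finset.mem_univ _, hr⟩)] at h2
    exact h2
  have hm : 1 ≤ (univ.filter fun v => ¬ T.degree v = 2).card :=
    Finset.card_pos.2 ⟨r, by
      rw [Finset.mem_filter]
      exact ⟨Finset.mem_univ _, hr⟩⟩
  omega

end Pool.Agent.HPP3
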