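import Mathlib

/-!
Threads of vertices of degree two in an acyclic graph.
-/

set_option autoImplicit false

namespace Pool.Agent.HPP3

open SimpleGraph

/-- `y` has exactly two neighbours -/
def Two {V : Type} (T : SimpleGraph V) (y : V) : Prop :=
  ∃ x z, x ≠ z ∧ ∀ w, T.Adj y w ↔ (w = x ∨ w = z)

variable {V : Type} {T : SimpleGraph V}

theorem Two.eq {y x z : V} (h : Two T y) (hx : T.Adj y x) (hz : T.Adj y z) (hxz : z ≠ x) (w : V) :
    T.Adj y w ↔ (w = x ∨ w = z) := by
  obtain ⟨p, q, hpq, h1⟩ := h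
  have h2 := (h1 x).1 hx
  have h3 := (h1 z).1 hz
  rw [h1]
  rcases h2 with rfl | rfl <;> rcases h3 with rfl | rfl
  · exact absurd rfl hxz
  · exact Iff.rfl
  · exact or_comm
  · exact absurd rfl hxz

/-- the next vertex -/
noncomputable def nx (T : SimpleGraph V) (x y : V) : V :=
  open Classical in if h : ∃ w, T.Adj y w ∧ w ≠ x then h.choose else y

theorem nx_spec {x y : V} (h : Two T y) : T.Adj y (nx T x y) ∧ nx T x y ≠ x := by
  have h1 : ∃ w, T.Adj y w ∧ w ≠ x := by
    obtain ⟨p, q, hpq, h1⟩ := h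
    by_cases hp : p = x
    · exact ⟨q, (h1 q).2 (Or.inr rfl), fun h2 => hpq (hp.trans h2.symm)⟩
    · exact ⟨p, (h1 p).2 (Or.inl rfl), hp⟩
  unfold nx
  rw [dif_pos h1]
  exact h1.choose_spec

/-- the thread starting with `x, y` -/
noncomputable def th (T : SimpleGraph V) (x y : V) : ℕ → V
  | 0 => x
  | 1 => y
  | (i + 2) => nx T (th T x y i) (th T x y (i + 1))

theorem th_add_two (x y : V) (i : ℕ) : th T x y (i + 2) = nx T (th T x y i) (th T x y (i + 1)) := by
  rw [th]

theorem th_zero (x y : V) : th T x y 0 = x := by rw [th]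

theorem th_one (x y : V) : th T x y 1 = y := by rw [th]

/-- a thread is a walk without backtracking as long as its inner vertices have degree two -/
theorem th_walk {x y : V} (hxy : T.Adj x y) {J : ℕ} (hJ : ∀ i, 1 ≤ i → i ≤ J → Two T (th T x y i)) :
    (∀ i, i ≤ J → T.Adj (th T x y i) (th T x y (i + 1))) ∧
      ∀ i, i < J → th T x y (i + 2) ≠ th T x y i := by
  have h2 : ∀ i, i < J → T.Adj (th T x y (i + 1)) (th T x y (i + 2)) ∧
      th T x y (i + 2) ≠ th T x y i := by
    intro i hi
    rw [th_add_two]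
    exact nx_spec (hJ (i + 1) (by omega) (by omega))
  refine ⟨fun i hi => ?_, fun i hi => (h2 i hi).2⟩
  rcases i with _ | i
  · rw [th_zero, th_one]
    exact hxy
  · exact (h2 i (by omega)).1

/-- any non-backtracking walk through vertices of degree two is the thread of its first edge -/
theorem eq_th {s : ℕ → V} {j : ℕ} (hadj : ∀ i, i < j → T.Adj (s i) (s (i + 1)))
    (hne : ∀ i, i + 2 ≤ j → s (i + 2) ≠ s i) (h2 : ∀ i, 1 ≤ i → i < j → Two T (s i)) :
    ∀ i, i ≤ j → s i = th T (s 0) (s 1) i := by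
  have key : ∀ i, (i ≤ j → s i = th T (s 0) (s 1) i) ∧
      (i + 1 ≤ j → s (i + 1) = th T (s 0) (s 1) (i + 1)) := by
    intro i
    induction i with
    | zero => exact ⟨fun _ => (th_zero _ _).symm, fun _ => (th_one _ _).symm⟩
    | succ i ih =>
      refine ⟨ih.2, fun hi => ?_⟩
      have e1 := ih.1 (by omega)
      have e2 := ih.2 (by omega)
      rw [th_add_two, ← e1, ← e2]
      have ht : Two T (s (i + 1)) := h2 (i + 1) (by omega) (by omega)
      obtain ⟨h3, h4⟩ := nx_spec (x := s i) ht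
      have h5 := ht.eq (hadj i (by omega)).symm (hadj (i + 1) (by omega)) (hne i (by omega))
      rcases (h5 _).1 h3 with h6 | h6
      · exact absurd h6 h4
      · exact h6.symm
  exact fun i => (key i).1

/-- the walk of a sequence -/
theorem exists_walk (s : ℕ → V) (N : ℕ) (hadj : ∀ i, i < N → T.Adj (s i) (s (i + 1))) :
    ∃ p : T.Walk (s 0) (s N), p.support = (List.range (N + 1)).map s ∧
      p.edges = (List.range N).map (fun i => s(s i, s (i + 1))) := by
  induction N with
  | zero => exact ⟨Walk.nil, by simp, by simp⟩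
  | succ N ih =>
    obtain ⟨p, h1, h2⟩ := ih fun i hi => hadj i (by omega)
    refine ⟨p.concat (hadj N (by omega)), ?_, ?_⟩
    · rw [Walk.support_concat, h1, List.range_succ (n := N + 1), List.map_append]
      simp
    · rw [Walk.edges_concat, h2, List.range_succ (n := N), List.map_append]
      simp

theorem inj_of_acyclic (hT : T.IsAcyclic) {s : ℕ → V} {N : ℕ}
    (hadj : ∀ i, i < N → T.Adj (s i) (s (i + 1))) (hne : ∀ i, i + 2 ≤ N → s (i + 2) ≠ s i) :
    ∀ i j, i ≤ N → j ≤ N → s i = s j → i = j := by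
  obtain ⟨p, h1, h2⟩ := exists_walk s N hadj
  have hp : p.IsPath := by
    rw [hT.isPath_iff_isChain, h2, List.isChain_map, List.isChain_range]
    intro m hm h3
    rcases Sym2.eq_iff.1 h3 with ⟨h4, -⟩ | ⟨h4, -⟩
    · exact (hadj m (by omega)).ne h4
    · exact hne m (by omega) h4.symm
  have h3 := hp.support_nodup
  rw [h1] at h3
  intro i j hi hj hij
  exact List.inj_on_of_nodup_map h3 (by simpa using Nat.lt_succ_of_le hi)
    (by simpa using Nat.lt_succ_of_le hj) hij

/-- If there is no bare path, then every dart into a vertex of degree two lies on a short thread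
that starts at a vertex whose degree is not two. -/
theorem thread_dart (hT : T.IsAcyclic)
    (hno : ¬ ∃ a : ℕ → V, (∀ i j, i ≤ 15 → j ≤ 15 → a i = a j → i = j) ∧
      ∀ i, 0 < i → i < 15 → ∀ v, T.Adj (a i) v ↔ v = a (i - 1) ∨ v = a (i + 1)) {u v : V}
    (huv : T.Adj u v) (hv : Two T v) :
    ∃ b y i, 1 ≤ i ∧ i ≤ 13 ∧ T.Adj b y ∧ ¬ Two T b ∧ th T b y (i - 1) = u ∧ th T b y i = v := by
  obtain ⟨z, hzv, hzu⟩ : ∃ z, T.Adj v z ∧ z ≠ u := ⟨_, nx_spec hv⟩
  have hzv' : T.Adj z v := hzv.symm
  set s := th T z v with hs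
  have hs2 : s 2 = u := by
    rw [hs, th_add_two z v 0, th_zero, zero_add, th_one]
    obtain ⟨h3, h4⟩ := nx_spec (x := z) hv
    rcases (hv.eq hzv huv.symm hzu.symm _).1 h3 with h5 | h5
    · exact absurd h5 h4
    · exact h5
  by_cases hall : ∀ i, 1 ≤ i → i ≤ 14 → Two T (s i)
  · exfalso
    apply hno
    obtain ⟨h1, h2⟩ := th_walk hzv' hall
    refine ⟨s, inj_of_acyclic hT (fun i hi => h1 i (by omega)) (fun i hi => h2 i (by omega)), ?_⟩
    intro i hi0 hi w
    obtain ⟨k, rfl⟩ : ∃ k, i = k + 1 := ⟨i - 1, by omega⟩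
    have e1 : k + 1 - 1 = k := by omega
    rw [e1]
    exact (hall (k + 1) (by omega) (by omega)).eq (h1 k (by omega)).symm (h1 (k + 1) (by omega))
      (h2 k (by omega)) w
  · push Not at hall
    classical
    let P : ℕ → Prop := fun i => 1 ≤ i ∧ i ≤ 14 ∧ ¬ Two T (s i)
    have hex : ∃ i, P i := hall
    set j := Nat.find hex with hj
    obtain ⟨hj1, hj2, hj3⟩ : P j := Nat.find_spec hex
    have hmin : ∀ i, 1 ≤ i → i ≤ j - 1 → Two T (s i) := by
      intro i hi1 hi2
      by_contra h3
      exact Nat.find_min hex (m := i) (by omega) ⟨hi1, by omega, h3⟩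
    have hj2' : 2 ≤ j := by
      by_contra h3
      have h4 : j = 1 := by omega
      rw [h4, hs, th_one] at hj3
      exact hj3 hv
    obtain ⟨h1, h2⟩ := th_walk hzv' hmin
    -- the reversed sequence
    let r : ℕ → V := fun i => s (j - i)
    have hr1 : ∀ i, i < j → T.Adj (r i) (r (i + 1)) := by
      intro i hi
      show T.Adj (s (j - i)) (s (j - (i + 1)))
      have h3 := h1 (j - (i + 1)) (by omega)
      have e1 : j - (i + 1) + 1 = j - i := by omega
      rw [e1] at h3
      exact h3.symm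
    have hr2 : ∀ i, i + 2 ≤ j → r (i + 2) ≠ r i := by
      intro i hi
      show s (j - (i + 2)) ≠ s (j - i)
      have h3 := h2 (j - (i + 2)) (by omega)
      have e1 : j - (i + 2) + 2 = j - i := by omega
      rw [e1] at h3
      exact h3.symm
    have hr3 : ∀ i, 1 ≤ i → i < j → Two T (r i) := by
      intro i hi1 hi2
      exact hmin (j - i) (by omega) (by omega)
    have h3 := eq_th hr1 hr2 hr3 (j - 1) (by omega)
    have h4 := eq_th hr1 hr2 hr3 (j - 2) (by omega)
    refine ⟨r 0, r 1, j - 1, by omega, by omega, hr1 0 (by omega), ?_, ?_, ?_⟩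
    · show ¬ Two T (s (j - 0))
      rw [Nat.sub_zero]
      exact hj3
    · have e0 : j - 1 - 1 = j - 2 := by omega
      rw [e0, ← h4]
      show s (j - (j - 2)) = u
      have e1 : j - (j - 2) = 2 := by omega
      rw [e1, hs2]
    · rw [← h3]
      show s (j - (j - 1)) = v
      have e1 : j - (j - 1) = 1 := by omega
      rw [e1, hs, th_one]

end Pool.Agent.HPP3
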